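import Pool.Agent.H40.Iso

set_option autoImplicit false

namespace Pool.Agent.Results.MP_9f131e_lc.NotConjugate

open Pool.Agent.H40.Isotyp

/-- A variety with isotypic finitely generated free algebras and two points of equal type that
are not conjugate by an isomorphism. -/
theorem result : ∃ (L : FirstOrder.Language.{0, 0}) (E : Set (L.Term ℕ × L.Term ℕ))
    (H₁ H₂ : Type) (_ : L.Structure H₁) (_ : L.Structure H₂) (k₁ k₂ n : ℕ)
    (μ : Fin n → H₁) (ν : Fin n → H₂),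
    (∀ m, IsEmpty (L.Relations m)) ∧ IsFree E H₁ k₁ ∧ IsFree E H₂ k₂ ∧ Isotypic L H₁ H₂ ∧
      SameType L μ ν ∧ ¬ ∃ σ : L.Equiv H₁ H₂, σ ∘ μ = ν :=
  ⟨LL, EE, HH, HH, inferInstance, inferInstance, 1, 1, 1, fun _ => .inr false, fun _ => .inr true,
    fun _ => inferInstanceAs (IsEmpty Empty), hh_free, hh_free,
    fun _ => ⟨fun μ => ⟨μ, fun _ => Iff.rfl⟩, fun μ => ⟨μ, fun _ => Iff.rfl⟩⟩, same,
    fun ⟨σ, h⟩ => no_aut σ (congrFun h 0)⟩

end Pool.Agent.Results.MP_9f131e_lc.NotConjugate
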